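import Pool.Agent.Lib.MP_acafa7_al.MS.Iface2

namespace MSG
namespace H48

open Classical

variable {D : Type}

/-- reachable from `p` by `φ` and by `ι` except at `p`, `ι p` -/
inductive Reach (M : DMap D) (p : D) : D → Prop
  | base : Reach M p p
  | phi (d : D) : Reach M p d → Reach M p (M.φ d)
  | iota (d : D) : Reach M p d → d ≠ p → d ≠ M.ι p → Reach M p (M.ι d)

noncomputable def one (a d : D) : ZMod 2 := if d = a then 1 else 0

theorem z2 (x : ZMod 2) : x + x = 0 := CharTwo.add_self_eq_zero x

theorem reach_cochain (M : DMap D) (p d : D) (h : Reach M p d) :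
    ∃ κ c : D → ZMod 2, (∀ x, κ x + κ (M.φ.symm x) + c x = one p x + one d x) ∧
      (∀ x, c (M.ι x) = c x) ∧ c p = 0 := by
  induction h with
  | base => exact ⟨fun _ => 0, fun _ => 0, fun x => by simp [z2], fun _ => rfl, rfl⟩
  | phi d _ ih =>
    obtain ⟨κ, c, h1, h2, h3⟩ := ih
    refine ⟨fun x => κ x + one d x, c, fun x => ?_, h2, h3⟩
    have e : one d (M.φ.symm x) = one (M.φ d) x := by
      unfold one
      by_cases hx : x = M.φ d
      · simp [hx]
      · rw [if_neg hx, if_neg]
        intro h; exact hx (by rw [← h]; simp)
    have := h1 x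
    have z := z2 (one d x)
    show κ x + one d x + (κ (M.φ.symm x) + one d (M.φ.symm x)) + c x = one p x + one (M.φ d) x
    rw [e]
    linear_combination this + z
  | iota d _ hp hip ih =>
    obtain ⟨κ, c, h1, h2, h3⟩ := ih
    have e : ∀ x, one d (M.ι x) = one (M.ι d) x := by
      intro x
      unfold one
      by_cases hx : x = M.ι d
      · simp [hx, M.ιι]
      · rw [if_neg hx, if_neg]
        intro h; exact hx (by rw [← h, M.ιι])
    have e' : ∀ x, one (M.ι d) (M.ι x) = one d x := by
      intro x
      unfold one
      by_cases hx : x = d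
      · simp [hx]
      · rw [if_neg hx, if_neg]
        intro h; exact hx (M.ι.injective h)
    refine ⟨κ, fun x => c x + one d x + one (M.ι d) x, fun x => ?_, fun x => ?_, ?_⟩
    · have := h1 x
      have z := z2 (one d x)
      linear_combination this + z
    · show c (M.ι x) + one d (M.ι x) + one (M.ι d) (M.ι x) = c x + one d x + one (M.ι d) x
      rw [h2, e, e']; ring
    · show c p + one d p + one (M.ι d) p = 0
      have a : one d p = 0 := if_neg (fun h => hp h.symm)
      have b : one (M.ι d) p = 0 := if_neg (fun h => hip (by rw [h, M.ιι]))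
      rw [h3, a, b]; simp

theorem dual : DualStatement := by
  intro D _ M p hpl hs
  have key : ¬ Reach M p (M.ι p) := by
    intro hr
    obtain ⟨κ, c, h1, h2, h3⟩ := reach_cochain M p (M.ι p) hr
    have hne := M.ne p
    have eιp : ∀ x, one (M.ι p) (M.ι x) = one p x := by
      intro x
      unfold one
      by_cases hx : x = p
      · simp [hx]
      · rw [if_neg hx, if_neg]
        intro h; exact hx (M.ι.injective h)
    have ep : ∀ x, one p (M.ι x) = one (M.ι p) x := by
      intro x
      unfold one
      by_cases hx : x = M.ι p
      · simp [hx, M.ιι]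
      · rw [if_neg hx, if_neg]
        intro h; exact hx (by rw [← h, M.ιι])
    have hk : ∀ d, κ d + κ (M.φ.symm d) = c d + one p d + one (M.ι p) d := by
      intro d
      have a := h1 d
      have b := z2 (c d)
      linear_combination a - b
    obtain ⟨h, ha, hb⟩ := hpl (fun d => κ (M.φ.symm d)) (by
      intro d
      have a := hk (M.ι d)
      have b := hk d
      rw [h2, ep, eιp] at a
      simp only [Equiv.symm_apply_apply]
      linear_combination a - b)
    have hp := hb p
    simp only [Equiv.symm_apply_apply] at hp
    have hkp := hk p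
    have o1 : one p p = 1 := if_pos rfl
    have o2 : one (M.ι p) p = 0 := if_neg (fun h => hne h.symm)
    rw [h3, o1, o2] at hkp
    have hh := ha p
    have := hs (fun d => h d = h p) (fun d => by rw [ha d])
    have hip : h (M.ι p) = h p := this.1 rfl
    rw [hh, hip] at hp
    have : κ p = κ (M.φ.symm p) := by linear_combination hp
    rw [this, z2] at hkp
    simp at hkp
  refine ⟨{d | Reach M p d}, Reach.base, key, fun d hd => Reach.phi d hd, fun d hd hdp => ?_⟩
  refine Reach.iota d hd hdp ?_
  rintro rfl
  exact key hd

end H48
end MSG
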